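import Pool.Agent.W891.TWB.Sumk
import Pool.Agent.W734.STB.Stms

/-!
# Many particles in a box, from three particles in subboxes (MP_a755a8_mp, part STB-ST1)
-/

set_option autoImplicit false

noncomputable section

namespace Pool.Agent.W19.STB

open MeasureTheory Set Filter Metric
open Pool.Agent.W734.TWB Pool.Agent.W734.STB Pool.Agent.W891.TWB

/-- the subboxes of the box with index `α` -/
def subB (M : ℕ) (α : Fin 3 → ℤ) : Finset (Fin 3 → ℤ) :=
  Fintype.piFinset (fun a => Finset.Ico ((M : ℤ) * α a) ((M : ℤ) * α a + M))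

theorem card_subB (M : ℕ) (α : Fin 3 → ℤ) : (subB M α).card = M ^ 3 := by
  unfold subB
  rw [Fintype.card_piFinset]
  simp

/-- the refinements of the index `k` -/
def refi {N : ℕ} (M : ℕ) (k : Fin N → (Fin 3 → ℤ)) : Finset (Fin N → (Fin 3 → ℤ)) :=
  Fintype.piFinset (fun i => subB M (k i))

theorem mem_refi {N : ℕ} (M : ℕ) (k κ : Fin N → (Fin 3 → ℤ)) :
    κ ∈ refi M k ↔ ∀ i, κ i ∈ subB M (k i) := by
  unfold refi
  rw [Fintype.mem_piFinset]

theorem mem_subB (M : ℕ) (α b : Fin 3 → ℤ) :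
    b ∈ subB M α ↔ ∀ a, (M : ℤ) * α a ≤ b a ∧ b a < (M : ℤ) * α a + M := by
  unfold subB
  rw [Fintype.mem_piFinset]
  simp only [Finset.mem_Ico]

theorem idx_eq {N : ℕ} {lam : ℝ} (hlam : 0 < lam) {κ : Fin N → (Fin 3 → ℤ)} {x : Cfg N}
    (hx : x ∈ reg lam κ) (i : Fin N) (a : Fin 3) : κ i a = ⌊x i a / lam⌋ := by
  have h := hx i a
  symm
  rw [Int.floor_eq_iff, le_div_iff₀ hlam, div_lt_iff₀ hlam]
  constructor
  · have := h.1
    linarith [mul_comm lam (κ i a : ℝ)]
  · have := h.2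
    nlinarith [mul_comm lam (κ i a : ℝ)]

theorem reg_disj {N : ℕ} {lam : ℝ} (hlam : 0 < lam) {κ κ' : Fin N → (Fin 3 → ℤ)} (hne : κ ≠ κ') :
    Disjoint (reg lam κ) (reg lam κ') := by
  rw [Set.disjoint_left]
  intro x h1 h2
  apply hne
  funext i a
  rw [idx_eq hlam h1 i a, idx_eq hlam h2 i a]

theorem reg_union {N : ℕ} {l : ℝ} (hl : 0 < l) {M : ℕ} (hM : 1 ≤ M) (k : Fin N → (Fin 3 → ℤ)) :
    reg l k = ⋃ κ ∈ refi M k, reg (l / M) κ := by
  have hM0 : (0 : ℝ) < M := by exact_mod_cast hM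
  have hlam : 0 < l / M := div_pos hl hM0
  have hlM : l = l / M * M := by field_simp
  obtain ⟨lam, hlamE⟩ : ∃ lam : ℝ, lam = l / M := ⟨_, rfl⟩
  rw [← hlamE] at hlam hlM ⊢
  ext x
  simp only [Set.mem_iUnion, exists_prop]
  constructor
  · intro hx
    refine ⟨fun i a => ⌊x i a / lam⌋, ?_, ?_⟩
    · rw [mem_refi]
      intro i
      rw [mem_subB]
      intro a
      have h := hx i a
      have h1 := h.1
      have h2 := h.2
      constructor
      · rw [Int.le_floor, le_div_iff₀ hlam]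
        push_cast
        calc (M : ℝ) * (k i a : ℝ) * lam = lam * M * (k i a : ℝ) := by ring
          _ = l * (k i a : ℝ) := by rw [← hlM]
          _ ≤ _ := h1
      · rw [Int.floor_lt, div_lt_iff₀ hlam]
        push_cast
        calc x i a < l * (k i a : ℝ) + l := h2
          _ = lam * M * (k i a : ℝ) + lam * M := by rw [← hlM]
          _ = _ := by ring
    · intro i a
      have h1 := Int.floor_le (x i a / lam)
      have h2 := Int.lt_floor_add_one (x i a / lam)
      rw [le_div_iff₀ hlam] at h1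
      rw [div_lt_iff₀ hlam] at h2
      constructor
      · linarith [mul_comm lam ((⌊x i a / lam⌋ : ℤ) : ℝ)]
      · nlinarith [mul_comm lam ((⌊x i a / lam⌋ : ℤ) : ℝ)]
  · rintro ⟨κ, hκ, hx⟩ i a
    rw [mem_refi] at hκ
    have h := (mem_subB M (k i) (κ i)).1 (hκ i) a
    have g := hx i a
    have h1 : (M : ℝ) * (k i a : ℝ) ≤ (κ i a : ℝ) := by exact_mod_cast h.1
    have h2 : (κ i a : ℝ) + 1 ≤ (M : ℝ) * (k i a : ℝ) + M := by
      have := Int.add_one_le_iff.2 h.2
      exact_mod_cast this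
    constructor
    · calc l * (k i a : ℝ) = lam * (M * (k i a : ℝ)) := by rw [← mul_assoc, ← hlM]
        _ ≤ lam * (κ i a : ℝ) := mul_le_mul_of_nonneg_left h1 hlam.le
        _ ≤ _ := g.1
    · calc x i a < lam * (κ i a : ℝ) + lam := g.2
        _ = lam * ((κ i a : ℝ) + 1) := by ring
        _ ≤ lam * ((M : ℝ) * (k i a : ℝ) + M) := mul_le_mul_of_nonneg_left h2 hlam.le
        _ = lam * M * (k i a : ℝ) + lam * M := by ring
        _ = _ := by rw [← hlM]

theorem wt_one {N : ℕ} (x : Cfg N) : wt (fun _ => (1 : ℝ)) x = 1 := by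
  unfold wt
  simp

theorem pairJ_zero {N : ℕ} (J : Finset (Fin N)) (x : Cfg N) :
    pairJ J (fun _ => (0 : ℝ)) x = 0 := by
  unfold pairJ
  simp

theorem st1 (hMg : S_MERGE) : S_ST1 := by
  intro v hv l M e hl hM he hbox N J k α hJ hcard F hF
  classical
  have hM0 : (0 : ℝ) < M := by exact_mod_cast hM
  obtain ⟨lam, hlamE⟩ : ∃ lam : ℝ, lam = l / M := ⟨_, rfl⟩
  have hlam : 0 < lam := by
    rw [hlamE]
    exact div_pos hl hM0
  have hc1 : Continuous (fun _ : E3 => (1 : ℝ)) := continuous_const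
  -- one region of the refined partition
  have hblock : ∀ κ ∈ refi M k, ∀ (q : ℕ) (T : Finset (Fin N)), T ⊆ J →
      3 * q + 2 * M ^ 3 ≤ T.card + 2 →
      (q : ℝ) * e * (∫ x in reg lam κ, ‖F x‖ ^ 2) ≤
        EJ (fun _ => 1) (fun _ => 0) v lam κ F T := by
    intro κ hκ q
    rw [mem_refi] at hκ
    induction q with
    | zero =>
      intro T _ _
      rw [Nat.cast_zero, zero_mul, zero_mul]
      exact EJ_nonneg hv lam κ T
    | succ q ih =>
      intro T hTJ hT
      have hmaps : ∀ i ∈ T, κ i ∈ subB M α := by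
        intro i hi
        rw [← hJ i (hTJ hi)]
        exact hκ i
      have hlt : (subB M α).card * 2 < T.card := by
        rw [card_subB]
        omega
      obtain ⟨b, -, hb⟩ := Finset.exists_lt_card_fiber_of_mul_lt_card_of_maps_to hmaps hlt
      obtain ⟨J1, hJ1, hc⟩ := Finset.exists_subset_card_eq
        (show 3 ≤ (T.filter (fun i => κ i = b)).card by omega)
      have hJ1T : J1 ⊆ T := hJ1.trans (Finset.filter_subset _ _)
      have hc2 : 3 * q + 2 * M ^ 3 ≤ (T \ J1).card + 2 := by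
        rw [Finset.card_sdiff_of_subset hJ1T, hc]
        omega
      have h1 := ih (T \ J1) (Finset.sdiff_subset.trans hTJ) hc2
      have h2 := hMg (fun _ => 1) hc1 (fun _ => one_pos) (fun _ => 0) v hv lam hlam b 3 e
        (by rw [hlamE]; exact hbox _) N J1 hc κ
        (fun i hi => (Finset.mem_filter.1 (hJ1 hi)).2) F hF
      have h3 := EJ_super hc1 hv lam κ hF J1 (T \ J1) T Finset.disjoint_sdiff hJ1T
        Finset.sdiff_subset
      have h4 : e * (∫ x in reg lam κ, ‖F x‖ ^ 2) ≤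
          EJ (fun _ => 1) (fun _ => 0) v lam κ F J1 := by
        simp only [wt_one, one_mul] at h2
        unfold EJ eJ
        simp only [wt_one, one_mul]
        exact h2
      push_cast
      nlinarith [h1, h3, h4]
  -- the number of triples
  obtain ⟨q, hq1, hq2⟩ : ∃ q : ℕ, 3 * q + 2 * M ^ 3 ≤ J.card + 2 ∧ J.card ≤ 6 * q := by
    refine ⟨(J.card + 2 - 2 * M ^ 3) / 3, ?_, ?_⟩ <;> omega
  have hq3 : (J.card : ℝ) / 6 ≤ q := by
    have : (J.card : ℝ) ≤ 6 * q := by exact_mod_cast hq2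
    linarith
  have hone : ∀ κ ∈ refi M k, (J.card : ℝ) / 6 * e * (∫ x in reg lam κ, ‖F x‖ ^ 2) ≤
      ∫ x in reg lam κ, (kinJ J F x + tripJ J v x * ‖F x‖ ^ 2) := by
    intro κ hκ
    have h1 := hblock κ hκ q J le_rfl hq1
    have hI : 0 ≤ ∫ x in reg lam κ, ‖F x‖ ^ 2 := integral_nonneg fun x => by positivity
    have h2 : EJ (fun _ => 1) (fun _ => 0) v lam κ F J =
        ∫ x in reg lam κ, (kinJ J F x + tripJ J v x * ‖F x‖ ^ 2) := by
      unfold EJ eJ
      simp only [wt_one, one_mul, pairJ_zero, zero_add]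
    rw [← h2]
    refine le_trans ?_ h1
    exact mul_le_mul_of_nonneg_right (mul_le_mul_of_nonneg_right hq3 he) hI
  have hLB1 : LB (fun x : Cfg N => ‖F x‖ ^ 2) := LB.of_cont (hF.continuous.norm.pow 2)
  have hLB2 : LB (fun x : Cfg N => kinJ J F x + tripJ J v x * ‖F x‖ ^ 2) := by
    refine LB.add ?_ (LB.mul (tripJ_LB hv J) hLB1)
    unfold kinJ
    exact LB.sum _ fun i _ => LB.of_cont (gsq_cont hF i)
  have hdisj : Set.Pairwise (↑(refi M k) : Set (Fin N → (Fin 3 → ℤ)))
      (Function.onFun Disjoint (fun κ => reg lam κ)) := fun κ _ κ' _ hne => reg_disj hlam hne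
  have hU := reg_union hl hM k
  rw [← hlamE] at hU
  rw [hU, integral_biUnion_finset _ (fun κ _ => meas_reg lam κ) hdisj
      (fun κ _ => intOn lam κ _ hLB1.1 hLB1.2),
    integral_biUnion_finset _ (fun κ _ => meas_reg lam κ) hdisj
      (fun κ _ => intOn lam κ _ hLB2.1 hLB2.2), Finset.mul_sum]
  exact Finset.sum_le_sum hone

end Pool.Agent.W19.STB
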